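import Pool.Agent.H97.Frag2

namespace Pool.Agent.Results.MP_572a82_pr.Yes

open Finset SimpleGraph Pool.Agent.H97.Frag

/-- Number of vertices outside a largest connected component. -/
noncomputable def frag {n : ℕ} (G : SimpleGraph (Fin n)) : ℕ :=
  n - sSup (Set.range fun c : G.ConnectedComponent => c.supp.ncard)

/-- Adding an edge between two different components stays in the class. -/
def BridgeAddable {n : ℕ} (A : Finset (SimpleGraph (Fin n))) : Prop :=
  ∀ G ∈ A, ∀ u v, ¬ G.Reachable u v → G ⊔ SimpleGraph.edge u v ∈ A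

theorem frag_le {n : ℕ} (G : SimpleGraph (Fin n)) : frag G ≤ fr G := by
  refine Nat.sub_le_sub_left (Finset.sup_le fun x _ => le_csSup (Set.finite_range _).bddAbove
    ⟨G.connectedComponentMk x, ?_⟩) n
  rw [← Set.ncard_coe_finset]
  congr 1
  ext y
  simp [mem_comp, reachable_comm]

theorem result : ∀ ε : ℝ, 0 < ε → ∃ N : ℕ, ∀ n : ℕ, N ≤ n →
    ∀ A : Finset (SimpleGraph (Fin n)), A.Nonempty → BridgeAddable A →
      (∑ G ∈ A, (frag G : ℝ)) / A.card ≤ 1 + ε := by
  intro ε hε
  obtain ⟨k, hk⟩ := exists_nat_gt (2 / ε)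
  refine ⟨(64 * (k + 1) ^ 3) ^ (4 * (k + 1) * (64 * (k + 1) ^ 3)), fun n hn A hA hB => ?_⟩
  · have h := (Nat.mul_le_mul_left k (sum_le_sum fun G (_ : G ∈ A) => frag_le G)).trans
      (main A (fun F hF p hp => hB F hF _ _ hp.not_reach) (k := k) hn)
    have h' : (k : ℝ) * ∑ G ∈ A, (frag G : ℝ) ≤ (k + 2) * A.card := by exact_mod_cast h
    have p : (0 : ℝ) < A.card := by exact_mod_cast hA.card_pos
    have k0 : (0 : ℝ) < k := lt_trans (by positivity) hk
    rw [div_lt_iff₀ hε] at hk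
    rw [div_le_iff₀ p]
    refine le_of_mul_le_mul_left (h'.trans ?_) k0
    nlinarith

end Pool.Agent.Results.MP_572a82_pr.Yes
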